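import Pool.Agent.H626.Kahn

set_option autoImplicit false

namespace Pool.Agent.Results.MP_e87df5_co.FourierWeightedFlow

open Finset

/-- The Fourier-Walsh coefficient `2^{-n} ∑_A f(A) (-1)^{|A ∩ S|}`. -/
noncomputable def fhat {n : ℕ} (f : Finset (Fin n) → ℝ) (S : Finset (Fin n)) : ℝ :=
  (∑ A : Finset (Fin n), f A * (-1 : ℝ) ^ (A ∩ S).card) / 2 ^ n

/-- `λ_i`: the sum of `f̂(S)^2` over the nonempty `S` with largest element `i`. -/
noncomputable def lam {n : ℕ} (f : Finset (Fin n) → ℝ) (i : Fin n) : ℝ :=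
  ∑ S ∈ univ.filter (fun S : Finset (Fin n) => S.max = (i : WithBot (Fin n))), fhat f S ^ 2

/-- `f~ = ∑_i λ_i χ_i`, where `χ_i` is the indicator function of `{A : i ∈ A}`. -/
noncomputable def ftilde {n : ℕ} (f : Finset (Fin n) → ℝ) (A : Finset (Fin n)) : ℝ :=
  ∑ i : Fin n, lam f i * (if i ∈ A then 1 else 0)

/-- `f*(A) = max(f(A), 0)^2`. -/
noncomputable def fstar {n : ℕ} (f : Finset (Fin n) → ℝ) (A : Finset (Fin n)) : ℝ :=
  (max (f A) 0) ^ 2

/-- `g` flows to `h`. -/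
def FlowsTo {n : ℕ} (g h : Finset (Fin n) → ℝ) : Prop :=
  ∃ v : Finset (Fin n) → Finset (Fin n) → ℝ, (∀ A B, 0 ≤ v A B) ∧
    (∀ A, ∑ B, v A B = g A) ∧ (∀ B, ∑ A, v A B = h B) ∧ (∀ A B, ¬ A ⊆ B → v A B = 0)

theorem result (n : ℕ) (f : Finset (Fin n) → ℝ) (hmono : ∀ A B, A ⊆ B → f A ≤ f B)
    (hanti : ∀ A, f Aᶜ = -f A) : FlowsTo (ftilde f) (fstar f) := by
  have hfh : ∀ S, fhat f S = Pool.Agent.H626.Op.fh f S := by
    intro S
    unfold fhat Pool.Agent.H626.Op.fh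
    congr 1
    refine Finset.sum_congr rfl fun A _ => ?_
    rw [Pool.Agent.H626.Op.chi_comm, Pool.Agent.H626.Op.chi_eq]
  set w := Pool.Agent.H626.Kahn.wmax (fun S => Pool.Agent.H626.Op.fh f S ^ 2) with hw
  obtain ⟨v, hv0, hv1, hv2, hv3⟩ := Pool.Agent.H626.Kahn.flow f hmono hanti w
    (Pool.Agent.H626.Kahn.wmax_nonneg _ (fun S => sq_nonneg _))
    (fun S i hi => Pool.Agent.H626.Kahn.wmax_notMem _ S i hi)
    (fun S hS => Pool.Agent.H626.Kahn.wmax_sum _ S hS)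
  refine ⟨v, hv0, fun A => ?_, hv3, hv1⟩
  rw [hv2 A]
  unfold ftilde lam
  have h1 : ∀ i : Fin n, ∑ S, w S i
      = ∑ S ∈ univ.filter (fun S : Finset (Fin n) => S.max = (i : WithBot (Fin n))),
        fhat f S ^ 2 := by
    intro i
    rw [Finset.sum_filter]
    refine Finset.sum_congr rfl fun S _ => ?_
    rw [hfh S]
    rfl
  rw [Finset.sum_congr rfl fun i _ => h1 i]
  simp

end Pool.Agent.Results.MP_e87df5_co.FourierWeightedFlow
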